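import Mathlib

/-!
# MP_e21010_lc: no constant deficit for sequentially picking agents

Full answer (NO) to Q1. See the doc comment of `result`.

PROOF. Fix `t > 2 C`, `T = 2 t` item types with `N` copies each, `n = 2 N` agents. The last
`K = 2 ^ T` agents correspond to the subsets `S` of the set of types; agent `S` values the items of
the types in `S` at `1` and the others at `0`. All earlier agents value every item at `0`, so they
may take any part. Let `B = t + 1`, `L = B ^ T`, weights `w = L + B ^ τ` for items of type `τ`.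
As long as some part has weight at least the average weight plus `γ = 1 / (K t)`, let the arriving
agent take it: with `r` parts the average weight drops by at least `γ / (r - 1)`. As the harmonic series
diverges, for large `N` this ends before the last `K` agents arrive. Then all parts have weight less than
the average plus `γ`, hence at most `t` items, the parts of maximum weight have the same numbers of
items of each type (uniqueness of digits in base `B`), and there are few other parts. So there is a
set `S` of at least `t` types with fewer than `r / K` items in the remaining set. From now on take a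
part with an item of a type in `S` whenever there is one: when `K` agents are left no such item is left,
the agent `S` gets `0` and has proportional share `|S| / 2 ≥ t / 2 > C`.
-/

set_option autoImplicit false

open Finset

namespace Pool.Agent.Results.MP_e21010_lc.NoConstantDeficit

/-- An instance with `n` agents and `m` indivisible items: additive valuations, every item has a
value in `[0, 1]` to every agent. -/
structure Inst (n m : ℕ) where
  v : Fin n → Fin m → ℝ
  nonneg : ∀ i g, 0 ≤ v i g
  le_one : ∀ i g, v i g ≤ 1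

/-- the value of the set `P` of items to the agent `i` -/
def Inst.val {n m : ℕ} (I : Inst n m) (i : Fin n) (P : Finset (Fin m)) : ℝ := ∑ g ∈ P, I.v i g

/-- the proportional share of the agent `i` -/
noncomputable def Inst.PROP {n m : ℕ} (I : Inst n m) (i : Fin n) : ℝ := I.val i univ / n

/-- A history: the list of the sets taken so far, in the order of the arrivals. -/
abbrev Hist (m : ℕ) := List (Finset (Fin m))

/-- the items not yet taken -/
def remaining {m : ℕ} (h : Hist m) : Finset (Fin m) := univ.filter fun g => ∀ P ∈ h, g ∉ P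

/-- A partitioning strategy. After the history `h` there are `n - h.length` agents left and the item
`g` is put in the part with number `lab h g`, one of the numbers `0, ..., n - h.length - 1`
(parts may be empty). -/
structure Strategy (n m : ℕ) where
  lab : Hist m → Fin m → ℕ
  lab_lt : ∀ h : Hist m, h.length < n → ∀ g, lab h g < n - h.length

/-- the part with number `j` of the partition of the remaining items offered after the history `h` -/
def Strategy.part {n m : ℕ} (s : Strategy n m) (h : Hist m) (j : ℕ) : Finset (Fin m) :=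
  (remaining h).filter fun g => s.lab h g = j

/-- The histories which are possible if the strategy `s` is used and the agents arrive in the order
`σ 0, σ 1, ...`: the arriving agent takes a part of maximum value to it; ties are broken
arbitrarily. -/
inductive Possible {n m : ℕ} (I : Inst n m) (σ : Equiv.Perm (Fin n)) (s : Strategy n m) :
    Hist m → Prop
  | nil : Possible I σ s []
  | step (h : Hist m) (hh : Possible I σ s h) (hk : h.length < n) (j : ℕ) (hj : j < n - h.length)
      (hmax : ∀ j' < n - h.length, I.val (σ ⟨h.length, hk⟩) (s.part h j') ≤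
        I.val (σ ⟨h.length, hk⟩) (s.part h j)) :
      Possible I σ s (h ++ [s.part h j])

/-- The strategy `s` ensures that every agent leaves with a part of value at least `PROP - C`,
however the ties are broken. The agent `σ k` takes the entry number `k` of the history. -/
def Ensures {n m : ℕ} (I : Inst n m) (σ : Equiv.Perm (Fin n)) (s : Strategy n m) (C : ℝ) : Prop :=
  ∀ h : Hist m, Possible I σ s h → h.length = n →
    ∀ k : Fin n, I.PROP (σ k) - C ≤ I.val (σ k) (h.getD k ∅)

/-! ## General lemmas -/

section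
variable {n m : ℕ}

theorem remaining_append (h : Hist m) (P : Finset (Fin m)) :
    remaining (h ++ [P]) = remaining h \ P := by
  ext g
  simp only [remaining, mem_filter, mem_univ, true_and, List.mem_append, List.mem_singleton,
    mem_sdiff]
  constructor
  · intro H
    exact ⟨fun Q hQ => H Q (Or.inl hQ), H P (Or.inr rfl)⟩
  · rintro ⟨H1, H2⟩ Q (hQ | rfl)
    · exact H1 Q hQ
    · exact H2

theorem remaining_anti (h h' : Hist m) (H : ∀ P ∈ h, P ∈ h') : remaining h' ⊆ remaining h := by
  intro g hg
  simp only [remaining, mem_filter, mem_univ, true_and] at hg ⊢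
  exact fun P hP => hg P (H P hP)

theorem part_subset (s : Strategy n m) (h : Hist m) (j : ℕ) : s.part h j ⊆ remaining h :=
  filter_subset _ _

theorem sum_parts (s : Strategy n m) (h : Hist m) (hk : h.length < n) (w : Fin m → ℕ) :
    ∑ j ∈ range (n - h.length), ∑ g ∈ s.part h j, w g = ∑ g ∈ remaining h, w g := by
  unfold Strategy.part
  exact Finset.sum_fiberwise_of_maps_to
    (fun g _ => mem_range.2 (s.lab_lt h hk g)) w

theorem sum_remaining_append (s : Strategy n m) (h : Hist m) (j : ℕ) (w : Fin m → ℕ) :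
    ∑ g ∈ remaining (h ++ [s.part h j]), w g + ∑ g ∈ s.part h j, w g
      = ∑ g ∈ remaining h, w g := by
  rw [remaining_append]
  exact Finset.sum_sdiff (part_subset s h j)

theorem exists_extension (I : Inst n m) (σ : Equiv.Perm (Fin n)) (s : Strategy n m) :
    ∀ (d : ℕ) (h : Hist m), Possible I σ s h → h.length + d = n →
      ∃ h', Possible I σ s (h ++ h') ∧ (h ++ h').length = n := by
  intro d
  induction d with
  | zero =>
    intro h hh hl
    exact ⟨[], by simpa using hh, by simpa using hl⟩
  | succ d ih =>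
    intro h hh hl
    have hk : h.length < n := by omega
    obtain ⟨j, hj, hmax⟩ := Finset.exists_max_image (range (n - h.length))
      (fun j => I.val (σ ⟨h.length, hk⟩) (s.part h j)) ⟨0, mem_range.2 (by omega)⟩
    have hp := Possible.step h hh hk j (mem_range.1 hj)
      (fun j' hj' => hmax j' (mem_range.2 hj'))
    obtain ⟨h', h1, h2⟩ := ih (h ++ [s.part h j]) hp (by simp; omega)
    refine ⟨[s.part h j] ++ h', ?_, ?_⟩
    · rw [← List.append_assoc]; exact h1
    · rw [← List.append_assoc]; exact h2

theorem getD_subset (I : Inst n m) (σ : Equiv.Perm (Fin n)) (s : Strategy n m) (h : Hist m)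
    (hh : Possible I σ s h) : ∀ k < h.length, h.getD k ∅ ⊆ remaining (h.take k) := by
  induction hh with
  | nil => intro k hk; simp at hk
  | step h hh hk j hj hmax ih =>
    intro k hk'
    rw [List.length_append, List.length_singleton] at hk'
    rcases Nat.lt_succ_iff_lt_or_eq.1 hk' with hlt | heq
    · rw [List.getD_append _ _ _ _ hlt, List.take_append_of_le_length hlt.le]
      exact ih k hlt
    · subst heq
      rw [List.getD_append_right _ _ _ _ (le_refl _), List.take_append_of_le_length (le_refl _),
        List.take_length]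
      simpa using part_subset s h j

end

/-! ## The two phases -/

section
variable {n m : ℕ}

/-- in the first phase the average weight drops -/
theorem phase_one (I : Inst n m) (σ : Equiv.Perm (Fin n)) (s : Strategy n m) (K : ℕ) (hK : 1 ≤ K)
    (hKn : K ≤ n)
    (hfree : ∀ k : Fin n, (k : ℕ) < n - K → ∀ g, I.v (σ k) g = 0)
    (w : Fin m → ℕ) (γ x0 : ℝ)
    (hx0 : ((∑ g, w g : ℕ) : ℝ) / n ≤ x0) (hγ : 0 ≤ γ) :
    ∀ k ≤ n - K,
      (∃ h : Hist m, Possible I σ s h ∧ h.length < n - K ∧
        ((∑ g ∈ remaining h, w g : ℕ) : ℝ) / ((n - h.length : ℕ) : ℝ) ≤ x0 ∧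
        ∀ j < n - h.length, ((∑ g ∈ s.part h j, w g : ℕ) : ℝ) <
          ((∑ g ∈ remaining h, w g : ℕ) : ℝ) / ((n - h.length : ℕ) : ℝ) + γ) ∨
      (∃ h : Hist m, Possible I σ s h ∧ h.length = k ∧
        ((∑ g ∈ remaining h, w g : ℕ) : ℝ) / ((n - k : ℕ) : ℝ) ≤
          x0 - γ * ∑ i ∈ range k, 1 / ((n - i - 1 : ℕ) : ℝ)) := by
  intro k
  induction k with
  | zero =>
    intro _
    right
    refine ⟨[], Possible.nil, rfl, ?_⟩
    simpa [remaining] using hx0
  | succ k ih =>
    intro hk
    rcases ih (by omega) with hl | ⟨h, hh, hlen, hx⟩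
    · exact Or.inl hl
    · subst hlen
      have hsum0 : 0 ≤ ∑ i ∈ range h.length, 1 / ((n - i - 1 : ℕ) : ℝ) :=
        Finset.sum_nonneg (fun i _ => by positivity)
      by_cases hc : ∀ j < n - h.length, ((∑ g ∈ s.part h j, w g : ℕ) : ℝ) <
          ((∑ g ∈ remaining h, w g : ℕ) : ℝ) / ((n - h.length : ℕ) : ℝ) + γ
      · left
        refine ⟨h, hh, by omega, ?_, hc⟩
        have := mul_nonneg hγ hsum0
        linarith
      · right
        push Not at hc
        obtain ⟨j, hj, hjw⟩ := hc
        have hkn : h.length < n := by omega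
        have hz : ∀ P : Finset (Fin m), I.val (σ ⟨h.length, hkn⟩) P = 0 := by
          intro P
          exact Finset.sum_eq_zero (fun g _ => hfree ⟨h.length, hkn⟩ (by simp; omega) g)
        have hp := Possible.step h hh hkn j hj (fun j' _ => by rw [hz, hz])
        refine ⟨_, hp, by simp, ?_⟩
        have e1 := sum_remaining_append s h j w
        have e1' : ((∑ g ∈ remaining (h ++ [s.part h j]), w g : ℕ) : ℝ)
            + ((∑ g ∈ s.part h j, w g : ℕ) : ℝ) = ((∑ g ∈ remaining h, w g : ℕ) : ℝ) := by
          exact_mod_cast e1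
        set R : ℝ := ((∑ g ∈ remaining h, w g : ℕ) : ℝ) with hR
        set R' : ℝ := ((∑ g ∈ remaining (h ++ [s.part h j]), w g : ℕ) : ℝ) with hR'
        have hr : ((n - h.length : ℕ) : ℝ) = ((n - (h.length + 1) : ℕ) : ℝ) + 1 := by
          have : n - h.length = (n - (h.length + 1)) + 1 := by omega
          rw [this]; push_cast; ring
        have hr1 : (1 : ℝ) ≤ ((n - (h.length + 1) : ℕ) : ℝ) := by
          have : 1 ≤ n - (h.length + 1) := by omega
          exact_mod_cast this
        have hr2 : ((n - h.length - 1 : ℕ) : ℝ) = ((n - (h.length + 1) : ℕ) : ℝ) := by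
          congr 1
        rw [Finset.sum_range_succ, hr2, mul_add]
        rw [hr] at hx hjw
        set r : ℝ := ((n - (h.length + 1) : ℕ) : ℝ) with hrdef
        have h1 : R' ≤ R - (R / (r + 1) + γ) := by linarith
        have h2 : R' / r ≤ R / (r + 1) - γ * (1 / r) := by
          rw [div_le_iff₀ (by linarith)]
          have : (R / (r + 1) - γ * (1 / r)) * r = R / (r + 1) * r - γ := by
            field_simp
          rw [this]
          have h3 : R = R / (r + 1) * (r + 1) := by field_simp
          nlinarith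
        linarith

/-- in the second phase the items of `S` (those with `c g = 1`) are used up -/
theorem phase_two (I : Inst n m) (σ : Equiv.Perm (Fin n)) (s : Strategy n m) (K : ℕ) (hK : 1 ≤ K)
    (hKn : K ≤ n)
    (hfree : ∀ k : Fin n, (k : ℕ) < n - K → ∀ g, I.v (σ k) g = 0)
    (c : Fin m → ℕ) :
    ∀ (d : ℕ) (h : Hist m), Possible I σ s h → h.length + d = n - K →
      (∑ g ∈ remaining h, c g) * K < n - h.length →
      ∃ h' : Hist m, Possible I σ s h' ∧ h'.length = n - K ∧ (∑ g ∈ remaining h', c g) = 0 := by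
  intro d
  induction d with
  | zero =>
    intro h hh hl hc
    refine ⟨h, hh, hl, ?_⟩
    have : n - h.length = K := by omega
    rw [this] at hc
    by_contra hne
    have h1 : 1 ≤ ∑ g ∈ remaining h, c g := Nat.one_le_iff_ne_zero.2 hne
    nlinarith
  | succ d ih =>
    intro h hh hl hc
    have hkn : h.length < n := by omega
    have hz : ∀ P : Finset (Fin m), I.val (σ ⟨h.length, hkn⟩) P = 0 := by
      intro P
      exact Finset.sum_eq_zero (fun g _ => hfree ⟨h.length, hkn⟩ (by simp; omega) g)
    by_cases h0 : ∑ g ∈ remaining h, c g = 0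
    · have hp := Possible.step h hh hkn 0 (by omega) (fun j' _ => by rw [hz, hz])
      refine ih _ hp (by simp; omega) ?_
      have e := sum_remaining_append s h 0 c
      have : ∑ g ∈ remaining (h ++ [s.part h 0]), c g = 0 := by omega
      rw [this]
      simp
      omega
    · have hs := sum_parts s h hkn c
      have : ∃ j ∈ range (n - h.length), ∑ g ∈ s.part h j, c g ≠ 0 := by
        by_contra hcon
        push Not at hcon
        rw [Finset.sum_eq_zero hcon] at hs
        exact h0 hs.symm
      obtain ⟨j, hj, hj0⟩ := this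
      have hp := Possible.step h hh hkn j (mem_range.1 hj) (fun j' _ => by rw [hz, hz])
      refine ih _ hp (by simp; omega) ?_
      have e := sum_remaining_append s h j c
      have h1 : ∑ g ∈ remaining (h ++ [s.part h j]), c g + 1 ≤ ∑ g ∈ remaining h, c g := by
        omega
      have h2 : (∑ g ∈ remaining (h ++ [s.part h j]), c g + 1) * K ≤
          (∑ g ∈ remaining h, c g) * K := Nat.mul_le_mul_right K h1
      simp only [List.length_append, List.length_singleton]
      have h3 : (∑ g ∈ remaining (h ++ [s.part h j]), c g + 1) * K =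
        (∑ g ∈ remaining (h ++ [s.part h j]), c g) * K + K := by ring
      omega

end

/-! ## Weights -/

section
variable {n m : ℕ}

/-- the weight of an item of type `ty g` -/
def wt {T : ℕ} (t : ℕ) (ty : Fin m → Fin T) (g : Fin m) : ℕ := (t + 1) ^ T + (t + 1) ^ (ty g : ℕ)

theorem sum_wt {T : ℕ} (t : ℕ) (ty : Fin m → Fin T) (P : Finset (Fin m)) :
    ∑ g ∈ P, wt t ty g = P.card * (t + 1) ^ T +
      ∑ τ : Fin T, (P.filter fun g => ty g = τ).card * (t + 1) ^ (τ : ℕ) := by
  unfold wt
  rw [Finset.sum_add_distrib, Finset.sum_const, smul_eq_mul]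
  congr 1
  rw [← Finset.sum_fiberwise_of_maps_to (s := P) (t := (univ : Finset (Fin T))) (g := ty)
    (fun g _ => mem_univ _)]
  refine Finset.sum_congr rfl (fun τ _ => ?_)
  rw [Finset.sum_congr rfl (g := fun _ => (t + 1) ^ (τ : ℕ)), Finset.sum_const, smul_eq_mul]
  intro g hg
  rw [(mem_filter.1 hg).2]

/-- the numbers of items of each type are determined by the weight -/
theorem digits {T : ℕ} (t : ℕ) (ty : Fin m → Fin T) (P Q : Finset (Fin m)) (hP : P.card ≤ t)
    (hQ : Q.card ≤ t) (h : ∑ g ∈ P, wt t ty g = ∑ g ∈ Q, wt t ty g) (τ : Fin T) :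
    (P.filter fun g => ty g = τ).card = (Q.filter fun g => ty g = τ).card := by
  rw [sum_wt, sum_wt] at h
  let f : Fin T → Fin (t + 1) := fun τ =>
    ⟨(P.filter fun g => ty g = τ).card, Nat.lt_succ_of_le ((card_filter_le _ _).trans hP)⟩
  let f' : Fin T → Fin (t + 1) := fun τ =>
    ⟨(Q.filter fun g => ty g = τ).card, Nat.lt_succ_of_le ((card_filter_le _ _).trans hQ)⟩
  have e1 : (finFunctionFinEquiv f : ℕ) =
      ∑ τ : Fin T, (P.filter fun g => ty g = τ).card * (t + 1) ^ (τ : ℕ) :=
    finFunctionFinEquiv_apply f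
  have e2 : (finFunctionFinEquiv f' : ℕ) =
      ∑ τ : Fin T, (Q.filter fun g => ty g = τ).card * (t + 1) ^ (τ : ℕ) :=
    finFunctionFinEquiv_apply f'
  rw [← e1, ← e2] at h
  have l1 := (finFunctionFinEquiv f).2
  have l2 := (finFunctionFinEquiv f').2
  have h' : (finFunctionFinEquiv f : ℕ) = (finFunctionFinEquiv f' : ℕ) := by
    have h3 := congrArg (fun x => x % (t + 1) ^ T) h
    rw [Nat.add_comm (P.card * _), Nat.add_mul_mod_self_right, Nat.add_comm (Q.card * _),
      Nat.add_mul_mod_self_right, Nat.mod_eq_of_lt l1, Nat.mod_eq_of_lt l2] at h3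
    exact h3
  have hf : f = f' := finFunctionFinEquiv.injective (Fin.ext h')
  have := congrArg Fin.val (congrFun hf τ)
  exact this

/-- when no part has a weight much above the average, a set of at least `t` types is nearly used
up -/
theorem exists_types (s : Strategy n m) (h : Hist m) (hk : h.length < n) (t : ℕ) (ht : 1 ≤ t)
    (ty : Fin m → Fin (2 * t)) (γ : ℝ) (hγ : γ ≤ 1 / 2)
    (hX : ((∑ g ∈ remaining h, wt t ty g : ℕ) : ℝ) / ((n - h.length : ℕ) : ℝ) ≤
      (t + 1 / 2) * ((t : ℝ) + 1) ^ (2 * t))
    (hsm : ∀ j < n - h.length, ((∑ g ∈ s.part h j, wt t ty g : ℕ) : ℝ) <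
      ((∑ g ∈ remaining h, wt t ty g : ℕ) : ℝ) / ((n - h.length : ℕ) : ℝ) + γ) :
    ∃ S : Finset (Fin (2 * t)), t ≤ S.card ∧
      ((∑ g ∈ remaining h, (if ty g ∈ S then 1 else 0) : ℕ) : ℝ) <
        t * ((n - h.length : ℕ) : ℝ) * γ := by
  classical
  set r : ℕ := n - h.length with hr
  have hr1 : 1 ≤ r := by omega
  have hrR : (0 : ℝ) < (r : ℝ) := by exact_mod_cast hr1
  set X : ℕ := ∑ g ∈ remaining h, wt t ty g with hXdef
  set W : ℕ → ℕ := fun j => ∑ g ∈ s.part h j, wt t ty g with hW
  have hsumW : ∑ j ∈ range r, W j = X := sum_parts s h hk _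
  obtain ⟨j0, hj0, hmax⟩ := Finset.exists_max_image (range r) W ⟨0, mem_range.2 (by omega)⟩
  have hj0' := mem_range.1 hj0
  -- every part has at most `t` items
  have hL : (1 : ℝ) ≤ ((t : ℝ) + 1) ^ (2 * t) := one_le_pow₀ (by linarith [Nat.cast_nonneg (α := ℝ) t])
  have hcard : ∀ j < r, (s.part h j).card ≤ t := by
    intro j hj
    by_contra hc
    push Not at hc
    have h1 : (t + 1) * (t + 1) ^ (2 * t) ≤ W j := by
      simp only [hW]
      rw [sum_wt]
      exact (Nat.mul_le_mul_right _ hc).trans (Nat.le_add_right _ _)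
    have h2 : ((t : ℝ) + 1) * ((t : ℝ) + 1) ^ (2 * t) ≤ (W j : ℝ) := by exact_mod_cast h1
    have h3 := hsm j hj
    simp only [hW] at h2
    nlinarith
  set S : Finset (Fin (2 * t)) :=
    univ.filter fun τ => ((s.part h j0).filter fun g => ty g = τ).card = 0 with hS
  refine ⟨S, ?_, ?_⟩
  · -- the complement of `S` has at most `t` elements
    have hsub : Sᶜ ⊆ (s.part h j0).image ty := by
      intro τ hτ
      simp only [hS, mem_compl, mem_filter, mem_univ, true_and, card_eq_zero] at hτ
      obtain ⟨g, hg⟩ := Finset.nonempty_iff_ne_empty.2 hτ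
      rw [mem_filter] at hg
      exact mem_image.2 ⟨g, hg.1, hg.2⟩
    have h1 : (Sᶜ).card ≤ t := (card_le_card hsub).trans (card_image_le.trans (hcard j0 hj0'))
    rw [card_compl, Fintype.card_fin] at h1
    omega
  · -- each part
    have hpart : ∀ j < r, (∑ g ∈ s.part h j, (if ty g ∈ S then 1 else 0) : ℕ) ≤
        t * (W j0 - W j) := by
      intro j hj
      have hle := hmax j (mem_range.2 hj)
      rcases Nat.lt_or_ge (W j) (W j0) with hlt | hge
      · have h1 : (∑ g ∈ s.part h j, (if ty g ∈ S then 1 else 0) : ℕ) ≤ t := by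
          refine (Finset.sum_le_card_nsmul _ _ 1 (fun g _ => by split_ifs <;> simp)).trans ?_
          simpa using hcard j hj
        have h2 : 1 ≤ W j0 - W j := by omega
        calc _ ≤ t * 1 := by simpa using h1
          _ ≤ t * (W j0 - W j) := Nat.mul_le_mul_left _ h2
      · have heq : W j = W j0 := le_antisymm hle hge
        rw [Finset.sum_eq_zero]
        · simp
        · intro g hg
          rw [if_neg]
          intro hgS
          simp only [hS, mem_filter, mem_univ, true_and] at hgS
          have hd := digits t ty (s.part h j) (s.part h j0) (hcard j hj) (hcard j0 hj0') heq (ty g)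
          rw [hgS] at hd
          have : g ∈ (s.part h j).filter fun g' => ty g' = ty g := mem_filter.2 ⟨hg, rfl⟩
          rw [card_eq_zero] at hd
          rw [hd] at this
          exact absurd this (notMem_empty g)
    have hsum : (∑ g ∈ remaining h, (if ty g ∈ S then 1 else 0) : ℕ) ≤
        ∑ j ∈ range r, t * (W j0 - W j) := by
      rw [← sum_parts s h hk]
      exact Finset.sum_le_sum (fun j hj => hpart j (mem_range.1 hj))
    have hsum2 : ((∑ j ∈ range r, t * (W j0 - W j) : ℕ) : ℝ) = t * (r * W j0 - X) := by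
      rw [← Finset.mul_sum]
      push_cast
      congr 1
      have h1 : ∀ j ∈ range r, ((W j0 - W j : ℕ) : ℝ) = (W j0 : ℝ) - (W j : ℝ) :=
        fun j hj => Nat.cast_sub (hmax j hj)
      rw [Finset.sum_congr rfl h1, Finset.sum_sub_distrib, Finset.sum_const, card_range,
        nsmul_eq_mul]
      congr 1
      rw [← hsumW]
      push_cast
      rfl
    have h3 := hsm j0 hj0'
    have h4 : (r : ℝ) * W j0 - X < r * γ := by
      have h5 : (W j0 : ℝ) < (X : ℝ) / r + γ := h3
      have h6 : (r : ℝ) * W j0 < r * ((X : ℝ) / r + γ) := mul_lt_mul_of_pos_left h5 hrR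
      have h7 : (r : ℝ) * ((X : ℝ) / r + γ) = X + r * γ := by field_simp
      linarith
    have ht' : (0 : ℝ) < t := by exact_mod_cast ht
    calc ((∑ g ∈ remaining h, (if ty g ∈ S then 1 else 0) : ℕ) : ℝ)
        ≤ ((∑ j ∈ range r, t * (W j0 - W j) : ℕ) : ℝ) := by exact_mod_cast hsum
      _ = t * (r * W j0 - X) := hsum2
      _ < t * (r * γ) := mul_lt_mul_of_pos_left h4 ht'
      _ = t * (r : ℝ) * γ := by ring

end

/-! ## The instance -/

/-- the type of an item -/
def ity (t N : ℕ) (g : Fin (2 * t * N)) : Fin (2 * t) := (finProdFinEquiv.symm g).1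

theorem sum_ity (t N : ℕ) {M : Type} [AddCommMonoid M] (F : Fin (2 * t) → M) :
    ∑ g : Fin (2 * t * N), F (ity t N g) = ∑ τ : Fin (2 * t), N • F τ := by
  unfold ity
  rw [Equiv.sum_comp finProdFinEquiv.symm (fun x : Fin (2 * t) × Fin N => F x.1),
    Fintype.sum_prod_type]
  simp

open Classical in
/-- the value of the item `g` to the agent arriving as number `k` among `n = 2 N` agents; `K` is the
number of sets of types, enumerated by `e` -/
noncomputable def uval (t N K : ℕ) (e : Finset (Fin (2 * t)) ≃ Fin K) (k : ℕ)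
    (g : Fin (2 * t * N)) : ℝ :=
  if ∃ S : Finset (Fin (2 * t)), k = 2 * N - K + (e S : ℕ) ∧ ity t N g ∈ S then 1 else 0

/-- **Theorem.** For every real `C` there are numbers `n` of agents and `m` of items such that for
every arrival order `σ` there is an instance with all item values `0` or `1` and the following
property: whatever partitioning strategy is used, for some way of breaking ties some agent, whose
proportional share is larger than `C`, leaves with a part of value `0`. In particular no constant
`C` works in Q1. -/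
theorem result (C : ℝ) : ∃ n m : ℕ, ∀ σ : Equiv.Perm (Fin n), ∃ I : Inst n m,
    (∀ i g, I.v i g = 0 ∨ I.v i g = 1) ∧
    ∀ s : Strategy n m, ∃ h : Hist m, Possible I σ s h ∧ h.length = n ∧
      ∃ k : Fin n, C < I.PROP (σ k) ∧ I.val (σ k) (h.getD k ∅) = 0 := by
  classical
  -- parameters
  obtain ⟨t0, ht0⟩ := exists_nat_gt (2 * C)
  set t : ℕ := t0 + 1 with ht
  have ht1 : 1 ≤ t := by omega
  have htC : 2 * C < t := by
    rw [ht]; push_cast; linarith
  have htR : (1 : ℝ) ≤ t := by exact_mod_cast ht1
  set K : ℕ := Fintype.card (Finset (Fin (2 * t))) with hKdef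
  have hK1 : 1 ≤ K := Fintype.card_pos
  have hK2 : 2 ≤ K := by
    rw [hKdef, Fintype.card_finset, Fintype.card_fin]
    calc 2 = 2 ^ 1 := by norm_num
      _ ≤ 2 ^ (2 * t) := Nat.pow_le_pow_right (by norm_num) (by omega)
  have hKR : (2 : ℝ) ≤ K := by exact_mod_cast hK2
  obtain ⟨e⟩ : Nonempty (Finset (Fin (2 * t)) ≃ Fin K) := ⟨Fintype.equivFin _⟩
  set γ : ℝ := 1 / (K * t) with hγdef
  have hγ0 : 0 < γ := by positivity
  have hγ1 : γ ≤ 1 / 2 := by
    rw [hγdef]
    apply one_div_le_one_div_of_le (by norm_num)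
    nlinarith
  set x0 : ℝ := (t + 1 / 2) * ((t : ℝ) + 1) ^ (2 * t) with hx0def
  obtain ⟨q0, hq0⟩ := Filter.eventually_atTop.1
    ((Real.tendsto_sum_range_one_div_nat_succ_atTop).eventually_gt_atTop (x0 * K / γ))
  set N : ℕ := K + q0 with hN
  have hN1 : 1 ≤ N := by omega
  have hKn : K ≤ 2 * N := by omega
  refine ⟨2 * N, 2 * t * N, fun σ => ?_⟩
  let I : Inst (2 * N) (2 * t * N) :=
    { v := fun i g => uval t N K e (σ.symm i) g
      nonneg := fun i g => by unfold uval; split_ifs <;> norm_num
      le_one := fun i g => by unfold uval; split_ifs <;> norm_num }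
  have hv : ∀ k g, I.v (σ k) g = uval t N K e k g := by
    intro k g
    show uval t N K e (σ.symm (σ k)) g = _
    rw [Equiv.symm_apply_apply]
  refine ⟨I, fun i g => ?_, fun s => ?_⟩
  · show uval t N K e (σ.symm i) g = 0 ∨ uval t N K e (σ.symm i) g = 1
    unfold uval
    split_ifs
    · exact Or.inr rfl
    · exact Or.inl rfl
  have hfree : ∀ k : Fin (2 * N), (k : ℕ) < 2 * N - K → ∀ g, I.v (σ k) g = 0 := by
    intro k hk g
    rw [hv]
    unfold uval
    rw [if_neg]
    rintro ⟨S, hS, -⟩
    omega
  have hkS : ∀ S : Finset (Fin (2 * t)), 2 * N - K + (e S : ℕ) < 2 * N := by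
    intro S
    have := (e S).2
    omega
  have hvS : ∀ (S : Finset (Fin (2 * t))) (g : Fin (2 * t * N)),
      I.v (σ ⟨2 * N - K + (e S : ℕ), hkS S⟩) g = if ity t N g ∈ S then 1 else 0 := by
    intro S g
    rw [hv]
    unfold uval
    by_cases hg : ity t N g ∈ S
    · rw [if_pos hg, if_pos ⟨S, rfl, hg⟩]
    · rw [if_neg hg, if_neg]
      rintro ⟨S', hS', hg'⟩
      simp only at hS'
      have : e S = e S' := Fin.ext (by omega)
      rw [e.injective this] at hg
      exact hg hg'
  -- the initial average weight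
  have hW0 : ((∑ g, wt t (ity t N) g : ℕ) : ℝ) / ((2 * N : ℕ) : ℝ) ≤ x0 := by
    have h1 : ∑ g, wt t (ity t N) g = ∑ τ : Fin (2 * t), N • ((t + 1) ^ (2 * t) + (t + 1) ^ (τ : ℕ)) :=
      sum_ity t N (fun τ => (t + 1) ^ (2 * t) + (t + 1) ^ (τ : ℕ))
    have h2 : ∑ τ : Fin (2 * t), (t + 1) ^ (τ : ℕ) ≤ (t + 1) ^ (2 * t) := by
      rw [Fin.sum_univ_eq_sum_range (fun i => (t + 1) ^ i)]
      exact (Nat.geomSum_lt (by omega) (fun k hk => mem_range.1 hk)).le
    have h3 : ∑ g, wt t (ity t N) g ≤ N * ((2 * t + 1) * (t + 1) ^ (2 * t)) := by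
      rw [h1, ← Finset.smul_sum, Finset.sum_add_distrib, Finset.sum_const, card_univ,
        Fintype.card_fin, smul_eq_mul, smul_eq_mul]
      apply Nat.mul_le_mul_left
      nlinarith
    have h4 : ((∑ g, wt t (ity t N) g : ℕ) : ℝ) ≤ N * ((2 * t + 1) * ((t : ℝ) + 1) ^ (2 * t)) := by
      exact_mod_cast h3
    have hNR : (0 : ℝ) < ((2 * N : ℕ) : ℝ) := by
      have : 0 < 2 * N := by omega
      exact_mod_cast this
    rw [div_le_iff₀ hNR, hx0def]
    push_cast
    calc _ ≤ N * ((2 * t + 1) * ((t : ℝ) + 1) ^ (2 * t)) := by exact_mod_cast h4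
      _ = (t + 1 / 2) * ((t : ℝ) + 1) ^ (2 * t) * (2 * N) := by ring
  -- first phase
  have h1 := phase_one I σ s K hK1 hKn hfree (wt t (ity t N)) γ x0 hW0 hγ0.le (2 * N - K) le_rfl
  rcases h1 with ⟨h, hh, hlen, hX, hsm⟩ | ⟨h, hh, hlen, hX⟩
  swap
  · -- impossible: the harmonic series diverges
    exfalso
    have hpos : (0 : ℝ) ≤ ((∑ g ∈ remaining h, wt t (ity t N) g : ℕ) : ℝ) /
        ((2 * N - (2 * N - K) : ℕ) : ℝ) := by positivity
    have hsum : (1 / K : ℝ) * ∑ j ∈ range (2 * N - K), 1 / ((j : ℝ) + 1) ≤
        ∑ i ∈ range (2 * N - K), 1 / ((2 * N - i - 1 : ℕ) : ℝ) := by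
      rw [← Finset.sum_range_reflect (fun i => 1 / ((2 * N - i - 1 : ℕ) : ℝ)), Finset.mul_sum]
      refine Finset.sum_le_sum (fun j hj => ?_)
      have hj' := mem_range.1 hj
      have e1 : 2 * N - (2 * N - K - 1 - j) - 1 = K + j := by omega
      rw [e1, one_div_mul_one_div]
      have hj0 : (0 : ℝ) ≤ j := Nat.cast_nonneg j
      apply one_div_le_one_div_of_le
      · push_cast; linarith
      · push_cast; nlinarith
    have hq := hq0 (2 * N - K) (by omega)
    have h2 : x0 < γ * ∑ i ∈ range (2 * N - K), 1 / ((2 * N - i - 1 : ℕ) : ℝ) := by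
      have hKpos : (0 : ℝ) < K := by linarith
      have h3 : x0 / γ < (1 / K : ℝ) * ∑ j ∈ range (2 * N - K), 1 / ((j : ℝ) + 1) := by
        rw [one_div, ← div_eq_inv_mul, lt_div_iff₀ hKpos]
        calc x0 / γ * K = x0 * K / γ := by ring
          _ < _ := hq
      have h4 : x0 / γ < ∑ i ∈ range (2 * N - K), 1 / ((2 * N - i - 1 : ℕ) : ℝ) :=
        lt_of_lt_of_le h3 hsum
      rwa [div_lt_iff₀ hγ0, mul_comm] at h4
    linarith
  -- the set of types
  obtain ⟨S, hScard, hSsm⟩ := exists_types s h (by omega) t ht1 (ity t N) γ hγ1 hX hsm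
  have hcS : (∑ g ∈ remaining h, (if ity t N g ∈ S then 1 else 0)) * K < 2 * N - h.length := by
    have h2 : (t : ℝ) * ((2 * N - h.length : ℕ) : ℝ) * γ * K = ((2 * N - h.length : ℕ) : ℝ) := by
      rw [hγdef]
      field_simp
    have h3 : ((∑ g ∈ remaining h, (if ity t N g ∈ S then 1 else 0) : ℕ) : ℝ) * K <
        ((2 * N - h.length : ℕ) : ℝ) := by
      rw [← h2]
      exact mul_lt_mul_of_pos_right hSsm (by linarith)
    exact_mod_cast h3
  -- second phase
  obtain ⟨h', hh', hlen', hzero⟩ := phase_two I σ s K hK1 hKn hfree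
    (fun g => if ity t N g ∈ S then 1 else 0) (2 * N - K - h.length) h hh (by omega) hcS
  obtain ⟨h'', hp, hl⟩ := exists_extension I σ s K h' hh' (by omega)
  refine ⟨h' ++ h'', hp, hl, ⟨2 * N - K + (e S : ℕ), hkS S⟩, ?_, ?_⟩
  · -- the proportional share
    have h2 : I.val (σ ⟨2 * N - K + (e S : ℕ), hkS S⟩) univ = N * S.card := by
      unfold Inst.val
      rw [Finset.sum_congr rfl (fun g _ => hvS S g),
        sum_ity t N (fun τ => if τ ∈ S then (1 : ℝ) else 0), ← Finset.smul_sum]
      simp
    rw [Inst.PROP, h2]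
    have hNR : (0 : ℝ) < N := by exact_mod_cast hN1
    have hSR : (t : ℝ) ≤ S.card := by exact_mod_cast hScard
    push_cast
    rw [mul_comm 2 (N : ℝ), mul_div_mul_left _ _ hNR.ne']
    linarith
  · -- the agent gets nothing
    refine Finset.sum_eq_zero (fun g hg => ?_)
    rw [hvS, if_neg]
    intro hgS
    have hsub := getD_subset I σ s (h' ++ h'') hp (2 * N - K + (e S : ℕ))
      (by rw [hl]; exact hkS S)
    have hg1 := hsub hg
    have hsub2 : remaining ((h' ++ h'').take (2 * N - K + (e S : ℕ))) ⊆ remaining h' := by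
      apply remaining_anti
      intro P hP
      rw [List.take_append, List.mem_append]
      left
      rwa [List.take_of_length_le (by omega)]
    have hg2 := hsub2 hg1
    have := (Finset.sum_eq_zero_iff.1 hzero) g hg2
    rw [if_pos hgS] at this
    exact absurd this one_ne_zero

/-- The negated form of Q1. -/
theorem no_constant : ¬ ∃ C : ℝ, ∀ (n m : ℕ) (I : Inst n m) (σ : Equiv.Perm (Fin n)),
    ∃ s : Strategy n m, Ensures I σ s C := by
  rintro ⟨C, hC⟩
  obtain ⟨n, m, hnm⟩ := result C
  obtain ⟨I, -, hI⟩ := hnm (Equiv.refl _)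
  obtain ⟨s, hs⟩ := hC n m I (Equiv.refl _)
  obtain ⟨h, hh, hl, k, hk1, hk2⟩ := hI s
  have := hs h hh hl k
  rw [hk2] at this
  linarith

end Pool.Agent.Results.MP_e21010_lc.NoConstantDeficit
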